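import Pool.Agent.Q40.FC.GaEx
import Pool.Agent.W558.WD.Plane

/-!
MP_b525bf_ag: resolution of singularities of the quotients of affine space `S × 𝔸ⁿ` over a surface
`S` by the finite flat subgroup schemes of `𝔾_a` which act by `x ↦ x + t ℓ (x)`, where the `ℓ j` are
invariant affine linear functions or products of such functions; in characteristic 2 these are
the quotients by all involutions which are affine linear on the fibres.

The proof: the field `K` generated by the invariant affine linear functions has smooth projective
models on which the minors of the relations between the `ℓ j` and the `ℓ j` are pairwise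
comparable (log resolution of a family of hyperplane arrangements over the surface). Over the
charts of such a model the functions `x j` are, after elimination, coordinates, so the charts are
smooth over `k`, and the group acts by `y ↦ y + t ℓ a`, with a single coordinate `y`. Then the
chart is free over the invariants, so Kunz's theorem (proved in `Q40/FF`) shows that the
invariants are smooth.

helper40; built on the library of the starting files (W558, W418, H920R2).
-/

set_option autoImplicit false

open AlgebraicGeometry CategoryTheory Pool.Agent.H920R2 Pool.Agent.W558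

universe u

namespace Pool.Agent.Results.MP_b525bf_ag.AffineInvolutions

section defs

variable {R : Type u} [CommRing R] {n : ℕ}

/-- The coaction `f (x) ↦ f (x + t ℓ (x))` of the additive group with the parameter `t`. -/
noncomputable def coaction (ℓ : Fin n → MvPolynomial (Fin n) R) :
    MvPolynomial (Fin n) R →ₐ[R] Polynomial (MvPolynomial (Fin n) R) :=
  MvPolynomial.aeval fun j => Polynomial.C (MvPolynomial.X j) + Polynomial.X * Polynomial.C (ℓ j)

/-- The equation `t ^ (p ^ m) + c (m - 1) t ^ (p ^ (m - 1)) + ... + c 0 t` of a finite flat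
subgroup scheme `H` of the additive group over `Spec R`, of order `p ^ m`. -/
noncomputable def equation (p m : ℕ) (c : Fin m → R) : Polynomial R :=
  Polynomial.X ^ p ^ m + ∑ i : Fin m, Polynomial.C (c i) * Polynomial.X ^ p ^ (i : ℕ)

/-- Affine linear functions `w = ∑ a j x j + b`, `a j, b ∈ R`, with `∑ a j ℓ j = 0`, that is
`w (x + t ℓ (x)) = w (x)`. -/
def IsInvariantForm (ℓ : Fin n → MvPolynomial (Fin n) R) (w : MvPolynomial (Fin n) R) : Prop :=
  ∃ (a : Fin n → R) (b : R), w = ∑ j, MvPolynomial.C (a j) * MvPolynomial.X j +
    MvPolynomial.C b ∧ ∑ j, MvPolynomial.C (a j) * ℓ j = 0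

/-- The invariants of the subgroup scheme `H` of the additive group with the equation `π`: the
polynomials `f` with `f (x + t ℓ (x)) = f (x)` modulo `π (t)`. -/
def invariants (k : Type u) [Field k] [Algebra k R] (ℓ : Fin n → MvPolynomial (Fin n) R)
    (π : Polynomial R) : Set (MvPolynomial (Fin n) R) :=
  {f | π.map (algebraMap R (MvPolynomial (Fin n) R)) ∣ coaction ℓ f - Polynomial.C f}

/-- `Spec A` is a variety over `k` which has a resolution of singularities. -/
def HasResolvableSpec (k A : Type u) [Field k] [CommRing A] [Algebra k A] : Prop :=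
  IsResolvableVariety (X := Spec (CommRingCat.of A))
    (Spec.map (CommRingCat.ofHom (algebraMap k A)))

/-- The subset `A` of `R[x]` is a subalgebra over `k`, and `Spec A` is a variety over `k` which
has a resolution of singularities. -/
def IsResolvable (k : Type u) [Field k] [Algebra k R]
    (A : Set (MvPolynomial (Fin n) R)) : Prop :=
  ∃ A' : Subalgebra k (MvPolynomial (Fin n) R), (A' : Set (MvPolynomial (Fin n) R)) = A ∧
    HasResolvableSpec k A'

/-- The affine linear functions `N x + b`. -/
noncomputable def affine (N : Matrix (Fin n) (Fin n) R) (b : Fin n → R) (j : Fin n) :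
    MvPolynomial (Fin n) R :=
  ∑ i, MvPolynomial.C (N j i) * MvPolynomial.X i + MvPolynomial.C (b j)

/-- The polynomials `f` with `f (M x + b) = f (x)`. -/
def fixed (M : Matrix (Fin n) (Fin n) R) (b : Fin n → R) : Set (MvPolynomial (Fin n) R) :=
  {f | MvPolynomial.aeval (affine M b) f = f}

/-- The constants of the vector field `∑ j, (N x + b) j * ∂ / ∂ x j`. -/
noncomputable def constants (N : Matrix (Fin n) (Fin n) R) (b : Fin n → R) :
    Set (MvPolynomial (Fin n) R) :=
  {f | MvPolynomial.mkDerivation R (affine N b) f = 0}

end defs

/-- `S = Spec R` is a surface whose function field is the function field of a smooth projective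
surface (always true), or it has any dimension and any finite family of nonzero elements of its
function field has its zeros and poles in a simple normal crossings divisor on a smooth projective
variety with the same function field (`HasLogModels`). -/
def IsGoodBase (k R : Type u) [Field k] [CommRing R] [IsDomain R] [Algebra k R] : Prop :=
  (Algebra.trdeg k (FractionRing R) = 2 ∧ HasModel k (FractionRing R)) ∨
    HasLogModels k (FractionRing R)

/-- Let `k` be a perfect field of characteristic `p` and `S = Spec R` an integral affine surface over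
`k` (or see `IsGoodBase`).

(1) Let the additive group over `S` act on `S × 𝔸ⁿ` by `x ↦ x + t ℓ (x)`, where every `ℓ j` is `0` or
a product of invariant affine linear functions over `R`. The quotient of `S × 𝔸ⁿ` by any finite flat
subgroup scheme `t ^ (p ^ m) + c (m - 1) t ^ (p ^ (m - 1)) + ... + c 0 t = 0` is a variety and has a
resolution of singularities.

(2) The quotient of `S × 𝔸ⁿ` by the automorphism `x ↦ M x + b` has a resolution of singularities, for
every matrix `M` and vector `b` over `R` with `(M - 1) ^ 2 = 0` and `(M - 1) b = 0`.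

(3) If `p = 2`, the quotient of `S × 𝔸ⁿ` by every involution over `S` of the form `x ↦ M x + b` has a
resolution of singularities.

(4) The quotient of `S × 𝔸ⁿ` by the vector field `∑ (N x + b) j ∂ / ∂ x j` has a resolution of
singularities, if `N ^ 2 = 0` and `N b = 0`.

This applies to `S = 𝔸²`. -/
theorem result (p : ℕ) [Fact p.Prime] (k : Type u) [Field k] [CharP k p] [PerfectField k] :
    (∀ (R : Type u) [CommRing R] [IsDomain R] [Algebra k R] [Algebra.FiniteType k R],
      IsGoodBase k R → ∀ (n : ℕ),
      (∀ (ℓ : Fin n → MvPolynomial (Fin n) R),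
        (∀ j, ℓ j = 0 ∨ ℓ j ∈ Submonoid.closure {w | IsInvariantForm ℓ w}) →
        ∀ (m : ℕ) (c : Fin m → R), IsResolvable k (invariants k ℓ (equation p m c))) ∧
      (∀ (M : Matrix (Fin n) (Fin n) R) (b : Fin n → R), (M - 1) * (M - 1) = 0 →
        (M - 1).mulVec b = 0 → IsResolvable k (fixed M b)) ∧
      (p = 2 → ∀ (M : Matrix (Fin n) (Fin n) R) (b : Fin n → R), M * M = 1 →
        M.mulVec b + b = 0 → IsResolvable k (fixed M b)) ∧
      (∀ (N : Matrix (Fin n) (Fin n) R) (b : Fin n → R), N * N = 0 → N.mulVec b = 0 →
        IsResolvable k (constants N b))) ∧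
    IsGoodBase k (MvPolynomial (Fin 2) k) := by
  refine ⟨?_, Or.inl ⟨trdeg_RF2 k, hasModel_RF2 k⟩⟩
  intro R _ _ _ _ hE n
  have hE' : Pool.Agent.W418.LCI.HasLM k (FractionRing R) := by
    rcases hE with ⟨h2, hE⟩ | hE
    · exact Pool.Agent.W418.LCI.hasLM_of_surface k _ h2 hE
    · exact Pool.Agent.W418.LCI.hasLM_of_models k _ hE
  have hco : ∀ (ℓ : Fin n → MvPolynomial (Fin n) R),
      (∀ j, ℓ j = 0 ∨ ℓ j ∈ Submonoid.closure {w | IsInvariantForm ℓ w}) →
      ∀ j, Pool.Agent.Q40.FC.co ℓ (ℓ j) = Polynomial.C (ℓ j) := by
    intro ℓ hℓ j
    rcases hℓ j with h | h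
    · rw [h, map_zero, map_zero]
    · exact Pool.Agent.Q40.FC.co_closure h
  have part1 : ∀ (ℓ : Fin n → MvPolynomial (Fin n) R),
      (∀ j, ℓ j = 0 ∨ ℓ j ∈ Submonoid.closure {w | IsInvariantForm ℓ w}) →
      ∀ (m : ℕ) (c : Fin m → R), IsResolvable k (invariants k ℓ (equation p m c)) := by
    intro ℓ hℓ m c
    have hft := Pool.Agent.Q40.FC.finiteType_invs (k := k) (p := p) (c := c) (hco ℓ hℓ)
    exact ⟨Pool.Agent.Q40.FC.invs k p m c ℓ, rfl,
      isResolvableVariety_spec (Pool.Agent.Q40.FC.ga_main hE' hℓ)⟩
  have hforms : ∀ (N : Matrix (Fin n) (Fin n) R) (b : Fin n → R), N * N = 0 →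
      N.mulVec b = 0 → ∀ j, affine N b j = 0 ∨
        affine N b j ∈ Submonoid.closure {w | IsInvariantForm (affine N b) w} :=
    fun N b hN hb j => Or.inr (Submonoid.subset_closure (Pool.Agent.Q40.FC.aff_form hN hb j))
  have part2 : ∀ (M : Matrix (Fin n) (Fin n) R) (b : Fin n → R), (M - 1) * (M - 1) = 0 →
        (M - 1).mulVec b = 0 → IsResolvable k (fixed M b) := by
    intro M b hM hb
    have h1 := part1 _ (hforms (M - 1) b hM hb) 1 (fun _ => -1)
    have h2 : invariants k (affine (M - 1) b) (equation p 1 fun _ => -1) = fixed M b := by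
      ext f
      refine (Pool.Agent.Q40.FC.mem_invs_tr (k := k) (p := p)
        (hco _ (hforms (M - 1) b hM hb)) f).trans ?_
      have h3 : Pool.Agent.Q40.FC.tr (affine (M - 1) b) = MvPolynomial.aeval (affine M b) := by
        apply MvPolynomial.algHom_ext
        intro j
        rw [Pool.Agent.Q40.FC.tr, MvPolynomial.aeval_X, MvPolynomial.aeval_X, affine, affine,
          ← add_assoc]
        congr 1
        have h4 : ∀ i, MvPolynomial.C ((M - 1) j i) * (MvPolynomial.X i :
            MvPolynomial (Fin n) R) = MvPolynomial.C (M j i) * MvPolynomial.X i -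
              if i = j then MvPolynomial.X j else 0 := by
          intro i
          rw [Matrix.sub_apply, Matrix.one_apply, map_sub, sub_mul]
          congr 1
          by_cases h : j = i
          · subst h; simp
          · rw [if_neg h, if_neg (Ne.symm h), map_zero, zero_mul]
        rw [Finset.sum_congr rfl fun i _ => h4 i, Finset.sum_sub_distrib, Finset.sum_ite_eq',
          if_pos (Finset.mem_univ _)]
        ring
      rw [h3]
      rfl
    rwa [h2] at h1
  refine ⟨part1, part2, ?_, ?_⟩
  · rintro rfl M b hM hb
    have hR : CharP R 2 := charP_of_injective_algebraMap (algebraMap k R).injective 2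
    have h2 : (2 : R) = 0 := by exact_mod_cast CharP.cast_eq_zero R 2
    refine part2 M b ?_ ?_
    · have h3 : (M - 1) * (M - 1) = (2 : R) • (1 - M) := by
        rw [two_smul, mul_sub, sub_mul, hM, one_mul, mul_one]
        abel
      rw [h3, h2, zero_smul]
    · rw [Matrix.sub_mulVec, Matrix.one_mulVec]
      have h3 : M.mulVec b - b = (M.mulVec b + b) - (2 : R) • b := by
        rw [two_smul]
        abel
      rw [h3, hb, h2, zero_smul, sub_zero]
  · intro N b hN hb
    have h1 := part1 _ (hforms N b hN hb) 1 (fun _ => 0)
    have h2 : invariants k (affine N b) (equation p 1 fun _ => 0) = constants N b := by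
      ext f
      exact Pool.Agent.Q40.FC.mem_invs_vf (k := k) (p := p) (hco _ (hforms N b hN hb)) f
    rwa [h2] at h1

end Pool.Agent.Results.MP_b525bf_ag.AffineInvolutions
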