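import Pool.Agent.Q17.Res.Uni4

/-!
MP_b525bf_ag: resolution of the quotients of smooth affine varieties of characteristic `p` by
finite `p`-groups whose leading forms at a weighted centre are linearly independent; in particular
every group of unitriangular matrices over the prime field acts in this way on affine spaces.
-/

set_option autoImplicit false

open AlgebraicGeometry CategoryTheory MvPolynomial Pool.Agent.H920R2 Pool.Agent.H519R3.RS

universe u

namespace Pool.Agent.Results.MP_b525bf_ag.FinitePGroups

section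

variable {k B : Type u} [Field k] [CommRing B] [Algebra k B]

/-- The structure morphism of the spectrum of a subalgebra. -/
noncomputable def str (C : Subalgebra k B) :
    Spec (CommRingCat.of C) ⟶ Spec (CommRingCat.of k) :=
  Spec.map (CommRingCat.ofHom (algebraMap k C))

/-- The spectrum of the subalgebra `C` is a variety and has a resolution of singularities: there
are an integral scheme `Y`, smooth over `k`, and a proper morphism from `Y` to the spectrum which
is an isomorphism over a dense open subset. -/
def IsResolvable (C : Subalgebra k B) : Prop :=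
  IsVariety (str C) ∧
  ∃ (Y : Scheme.{u}) (π : Y ⟶ Spec (CommRingCat.of C)),
    AlgebraicGeometry.IsIntegral Y ∧ AlgebraicGeometry.IsProper π ∧
    AlgebraicGeometry.Smooth (π ≫ str C) ∧
    ∃ U : (Spec (CommRingCat.of C)).Opens, Dense (U : Set (Spec (CommRingCat.of C))) ∧
      IsIso (π ∣_ U)

/-- The ring of invariants of a group of automorphisms. -/
noncomputable def invariants {G : Type} [Group G] (ρ : G →* (B ≃ₐ[k] B)) : Subalgebra k B where
  carrier := {b | ∀ g, ρ g b = b}
  mul_mem' := fun hx hy g => by rw [map_mul, hx g, hy g]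
  add_mem' := fun hx hy g => by rw [map_add, hx g, hy g]
  algebraMap_mem' := fun c g => AlgEquiv.commutes _ c

/-- The elements of weight `M` which are, up to higher order, combinations of the maximal minors of
the leading forms of the differences `σ i - 1`: the ideal generated by `F (M + 1)` and the products
of the determinants of `(σ i (c j) - c j)`, with `c j` of weight `e j`, with elements of weight
`M - ∑ j, (e j + m j)`. -/
def leadingMinors {n : ℕ} (σ : Fin n → (B ≃ₐ[k] B)) (F : ℕ → Ideal B) (m : Fin n → ℕ)
    (M : ℕ) : Ideal B :=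
  F (M + 1) ⊔ Ideal.span {y | ∃ (e : Fin n → ℕ) (c : Fin n → B), (∀ j, c j ∈ F (e j)) ∧
    ∃ b ∈ F (M - ∑ j, (e j + m j)),
      y = b * Matrix.det (Matrix.of fun i j => σ i (c j) - c j)}

end

/-- A series of subgroups `1 = H 0 ⊂ H 1 ⊂ ... ⊂ H n = G`, each normal of index `p` in the
next. -/
def IsSeries (p : ℕ) {G : Type} [Group G] (n : ℕ) (H : ℕ → Subgroup G) : Prop :=
  H 0 = ⊥ ∧ H n = ⊤ ∧ ∀ i < n, H i ≤ H (i + 1) ∧ (H i).relIndex (H (i + 1)) = p ∧
    ∀ x ∈ H (i + 1), ∀ h ∈ H i, x * h * x⁻¹ ∈ H i

section

variable {k : Type u} [Field k] {r m N : ℕ}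

/-- The coordinates: `X i` for `i < r` and the entries above the diagonal of `m` unitriangular
`N × N`-matrices. -/
abbrev Coord (r m N : ℕ) : Type := Fin r ⊕ (Fin m × {q : Fin N × Fin N // q.1 < q.2})

/-- The generic unitriangular matrices `Y t`. -/
noncomputable def genericMatrix (k : Type u) [Field k] (r m N : ℕ) (t : Fin m) :
    Matrix (Fin N) (Fin N) (MvPolynomial (Coord r m N) k) :=
  Matrix.of fun i j => if h : i < j then X (Sum.inr (t, ⟨(i, j), h⟩)) else if i = j then 1 else 0

/-- The matrix with the entries `g i j * f t ^ (j - i)`. -/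
noncomputable def scaled (p : ℕ) [CharP k p] (f : Fin m → MvPolynomial (Fin r) k)
    (g : Matrix (Fin N) (Fin N) (ZMod p)) (t : Fin m) :
    Matrix (Fin N) (Fin N) (MvPolynomial (Coord r m N) k) :=
  Matrix.of fun i j => C (ZMod.castHom (dvd_refl p) k (g i j)) *
    rename Sum.inl (f t) ^ (j - i : ℕ)

/-- The endomorphism `X i ↦ X i`, `Y t ↦ scaled g t * Y t` of the polynomial ring. -/
noncomputable def action (p : ℕ) [CharP k p] (f : Fin m → MvPolynomial (Fin r) k)
    (g : Matrix (Fin N) (Fin N) (ZMod p)) :
    MvPolynomial (Coord r m N) k →ₐ[k] MvPolynomial (Coord r m N) k :=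
  aeval (Sum.elim (fun i => X (Sum.inl i)) fun x =>
    (scaled p f g x.1 * genericMatrix k r m N x.1) x.2.1.1 x.2.1.2)

/-- The polynomials which are invariant under the group `G`. -/
noncomputable def invariantPolynomials (p : ℕ) [CharP k p] (f : Fin m → MvPolynomial (Fin r) k)
    (G : Subgroup (Matrix (Fin N) (Fin N) (ZMod p))ˣ) :
    Subalgebra k (MvPolynomial (Coord r m N) k) where
  carrier := {b | ∀ g ∈ G, action p f (g : Matrix (Fin N) (Fin N) (ZMod p)) b = b}
  mul_mem' := fun hx hy g hg => by rw [map_mul, hx g hg, hy g hg]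
  add_mem' := fun hx hy g hg => by rw [map_add, hx g hg, hy g hg]
  algebraMap_mem' := fun c g _ => AlgHom.commutes _ c

end

lemma ser_of {p : ℕ} (hp : p.Prime) {G : Type} [Group G] {n : ℕ} {H : ℕ → Subgroup G}
    (h : IsSeries p n H) {a : ℕ → G} (ha : ∀ i < n, a i ∈ H (i + 1) ∧ a i ∉ H i) :
    Q17.Res.Ser p n H a where
  bot := h.1
  top := h.2.1
  notMem := fun i hi => (ha i hi).2
  gen := fun i hi => by
    obtain ⟨h1, h2, -⟩ := h.2.2 i hi
    obtain ⟨h3, h4⟩ := ha i hi
    have h5 : H i ⊔ Subgroup.zpowers (a i) ≤ H (i + 1) := by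
      rw [sup_le_iff, Subgroup.zpowers_le]
      exact ⟨h1, h3⟩
    refine le_antisymm ?_ h5
    have h6 := Subgroup.relIndex_mul_relIndex (H i) (H i ⊔ Subgroup.zpowers (a i)) (H (i + 1))
      le_sup_left h5
    rw [h2] at h6
    rw [← Subgroup.relIndex_eq_one]
    rcases (Nat.prime_mul_iff.1 (h6 ▸ hp)) with h7 | h7
    · exact h7.2
    · exfalso
      apply h4
      have h8 := Subgroup.relIndex_eq_one.1 h7.2
      exact h8 ((le_sup_right : _ ≤ H i ⊔ Subgroup.zpowers (a i)) (Subgroup.mem_zpowers (a i)))
  pow := fun i hi => by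
    obtain ⟨h1, h2, h3⟩ := h.2.2 i hi
    have hN : ((H i).subgroupOf (H (i + 1))).Normal := by
      constructor
      intro x hx g
      rw [Subgroup.mem_subgroupOf] at hx ⊢
      exact h3 g g.2 x hx
    have h4 := Subgroup.pow_index_mem ((H i).subgroupOf (H (i + 1))) ⟨a i, (ha i hi).1⟩
    rw [Subgroup.mem_subgroupOf] at h4
    have h5 : ((H i).subgroupOf (H (i + 1))).index = p := h2
    rw [h5] at h4
    exact h4
  norm := fun i hi => by
    obtain ⟨h1, h2, h3⟩ := h.2.2 i hi
    obtain ⟨h4, -⟩ := ha i hi
    rw [Subgroup.mem_normalizer_iff]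
    intro x
    refine ⟨h3 _ h4 x, fun hx => ?_⟩
    have h5 := h3 _ ((H (i + 1)).inv_mem h4) _ hx
    have h6 : (a i)⁻¹ * (a i * x * (a i)⁻¹) * (a i)⁻¹⁻¹ = x := by group
    rwa [h6] at h5

lemma resolvable {k B : Type u} [Field k] [CommRing B] [IsDomain B] [Algebra k B]
    {F : ℕ → Ideal B} (hF : IsFilt F) {C : Subalgebra k B} (hG : Good k (isFilt_restr hF C))
    (hne : restr F C 1 ≠ ⊥) : IsResolvable C := concl hF hG hne

/-- Let `k` be a field of characteristic `p`.

(1) Let `B` be a domain over `k` and `F` a decreasing multiplicative filtration of `B` by ideals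
with `F 1 ≠ 0` such that either `B` is smooth and `F` is a regular weighted centre, or (`Good`; here
`B` may be singular) the weighted blowup of `F` is smooth. Let a finite `p`-group `G` act on `B`,
let `1 = H 0 ⊂ ... ⊂ H n = G` be a series of subgroups, each normal of index `p` in the next, and
`a i ∈ H (i + 1)`, `a i ∉ H i`, such that

* `a i - 1` raises the weights by `m i > 0`,
* the fixed points of every nontrivial element of `G` lie in the centre,
* the leading forms of the `a i - 1`, `i < n`, which are derivations of the graded ring of `F`,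
  are linearly independent at every point of the weighted normal cone outside of its vertex: every
  `b` of weight `d > 0` has a power which is, up to higher order, a combination of the
  `n × n`-minors of the leading forms.

Then the quotient `Spec (B ^ G)` is a variety and has a resolution of singularities.

(2) Let `G` be any group of unitriangular `N × N`-matrices over the prime field (every finite
`p`-group is isomorphic to such a group). Let the coordinates `X i` of affine `r`-space have
weights `w i ≥ 0`, not all zero, and let `f 1, ..., f m` be weighted homogeneous polynomials of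
the same degree `L > 0` whose common zeros (in any field) lie in the subspace where the coordinates
of positive weight vanish. Let `g ∈ G` act on the product of affine `r`-space and of `m` copies of
the group of unitriangular matrices by `(x, (y t)) ↦ (x, (g ^ (f t (x)) * y t))`, where
`g ^ (c)` is the matrix with the entries `g i j * c ^ (j - i)`. Then the quotient of this affine
space by `G` is a variety and has a resolution of singularities. -/
theorem result (p : ℕ) [Fact p.Prime] (k : Type u) [Field k] [CharP k p] :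
    (∀ (B : Type u) [CommRing B] [IsDomain B] [Algebra k B] (F : ℕ → Ideal B) (hF : IsFilt F),
      F 1 ≠ ⊥ → (Good k hF ∨ (Algebra.Smooth k B ∧ RegularWeightedCentre k F)) →
      ∀ (G : Type) [Group G] [Finite G] (ρ : G →* (B ≃ₐ[k] B)) (n : ℕ) (H : ℕ → Subgroup G)
        (a : ℕ → G) (m : ℕ → ℕ), IsSeries p n H → (∀ i < n, a i ∈ H (i + 1) ∧ a i ∉ H i) →
      (∀ i < n, 0 < m i) → (∀ i < n, ∀ d, ∀ b ∈ F d, ρ (a i) b - b ∈ F (d + m i)) →
      (∀ g : G, g ≠ 1 → ∀ P : Ideal B, P.IsPrime → (∀ b, ρ g b - b ∈ P) → F 1 ≤ P) →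
      (∀ d, 1 ≤ d → ∀ b ∈ F d, ∃ M : ℕ, b ^ M ∈
        leadingMinors (fun i : Fin n => ρ (a i)) F (fun i => m i) (M * d)) →
      IsResolvable (invariants ρ)) ∧
    ∀ (r m N : ℕ) (G : Subgroup (Matrix (Fin N) (Fin N) (ZMod p))ˣ),
      (∀ g ∈ G, ∀ i j, j ≤ i → (g : Matrix (Fin N) (Fin N) (ZMod p)) i j = if i = j then 1 else 0) →
      ∀ (w : Fin r → ℕ), (∃ i, 0 < w i) → ∀ (L : ℕ), 0 < L →
      ∀ (f : Fin m → MvPolynomial (Fin r) k), (∀ t, IsWeightedHomogeneous w (f t) L) →
      (∀ (K : Type u) [Field K] [Algebra k K] (z : Fin r → K), (∀ t, aeval z (f t) = 0) →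
        ∀ i, 0 < w i → z i = 0) →
      IsResolvable (invariantPolynomials p f G) := by
  have hp : p.Prime := Fact.out
  have hpk : (p : k) = 0 := CharP.cast_eq_zero k p
  constructor
  · intro B _ _ _ F hF hne hG G _ _ ρ n H a m hH ha hm hdiv hfix hlead
    have hG' : Good k hF := by
      rcases hG with h | ⟨h1, h2⟩
      · exact h
      · exact good_of_centre hF h2
    obtain ⟨h1, h2⟩ := Q17.Res.g_good ρ hF hp hpk (ser_of hp hH ha) m hm hdiv hfix hlead hG' hne
    have heq : invariants ρ = Q17.Res.gi ρ ⊤ := by
      ext b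
      exact ⟨fun h g _ => h g, fun h g => h g trivial⟩
    rw [heq]
    exact resolvable hF h1 h2
  · intro r m N G hG w hw L hL f hf hf0
    obtain ⟨h1, h2⟩ := Q17.Res.goodU w L f hf hf0 G hG hw hL
    have heq : invariantPolynomials p f G = Q17.Res.gi (Q17.Res.rhoU f G hG) ⊤ := by
      ext b
      constructor
      · intro h g _
        exact h _ (g⁻¹).2
      · intro h g hg
        have h3 : Q17.Res.actU p f (Q17.Res.mx ((⟨g, hg⟩ : G)⁻¹)⁻¹) b = b :=
          h (⟨g, hg⟩ : G)⁻¹ trivial
        rw [inv_inv] at h3
        exact h3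
    rw [heq]
    exact resolvable (Pool.Agent.H519R3.RE.isFilt_EI _ w) h1 h2

end Pool.Agent.Results.MP_b525bf_ag.FinitePGroups
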