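import Pool.Agent.Q40.FC.Const
import Pool.Agent.W558.WD.Plane

/-!
MP_b525bf_ag: resolution of singularities of the quotients of smooth schemes `X` over a surface or
threefold `S` by arbitrary finite groups whose orbit relation is constant over `S`; for example the
quotients of all smooth affine group schemes over `S` by arbitrary finite groups of sections.

The proof: (1) the coordinate ring of the orbit relation is constant over `S`, so the discriminant
ideal of `X → X / G`, generated by the determinants `det (g c_h)`, is extended from an ideal `I` of
the base; (2) the base is modified until `I` becomes invertible; (3) where the discriminant ideal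
is invertible, Cramer's rule shows that `X` is flat over `X / G`; (4) smoothness descends along
finite flat maps: Frobenius of the quotient is flat and by a theorem of Kunz, proved in
`Q40/FF`, the quotient is smooth; (5) the charts glue to a modification of the quotient.

helper40; built on the library of the starting files (W558, W418, H920R2).
-/

set_option autoImplicit false

open AlgebraicGeometry CategoryTheory Pool.Agent.H920R2 Pool.Agent.W558 TensorProduct

universe u

namespace Pool.Agent.Results.MP_b525bf_ag.GroupSchemeQuotients

section defs

/-- Every projective variety over `k` with the function field `E` is dominated by a smooth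
projective variety (both given by homogeneous coordinates `w` and `H`). -/
def HasSmoothModels (k E : Type u) [Field k] [Field E] [Algebra k E] : Prop :=
  ∀ (m : ℕ) (w : Fin (m + 1) → E), (∀ i, w i ≠ 0) →
    ∃ (N : ℕ) (H : Fin (N + 1) → E), (∀ i, H i ≠ 0) ∧
      ∀ i, Algebra.Smooth k (Algebra.adjoin k (Set.range fun j => H j / H i)) ∧
        ∃ l, ∀ j, w j / w l ∈ Algebra.adjoin k (Set.range fun j => H j / H i)

/-- The orbit relation of the action of `G` on `X = Spec B` is constant over `S = Spec R`: the
schematic image of `G × X → X ×_S X`, whose coordinate ring is the `B`-algebra of functions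
`G → B` generated by the orbit maps `g ↦ g • b`, is of the form `Γ ×_S X` with a scheme `Γ` over
`S`: this algebra is generated over `B` by functions `G → R`. -/
def IsConstantRelation (R B G : Type*) [CommRing R] [CommRing B] [Algebra R B] [Group G]
    [MulSemiringAction G B] : Prop :=
  ∃ V : Set (G → R), Algebra.adjoin B (Set.range fun (b : B) (g : G) => g • b) =
    Algebra.adjoin B ((fun (v : G → R) (g : G) => algebraMap R B (v g)) '' V)

/-- The algebra of invariants, the coordinate ring of the quotient `X / G`. -/
abbrev invariants (k R B G : Type*) [Field k] [CommRing R] [CommRing B] [Algebra k R] [Algebra R B]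
    [Algebra k B] [IsScalarTower k R B] [Group G] [MulSemiringAction G B] [SMulCommClass G R B] :
    Subalgebra k B :=
  (FixedPoints.subalgebra R B G).restrictScalars k

/-- The quotient of `X = Spec B` by `G` is a variety over `k` and has a resolution of
singularities. -/
def QuotientHasResolution (k R B G : Type u) [Field k] [CommRing R] [CommRing B] [IsDomain B]
    [Algebra k R] [Algebra R B] [Algebra k B] [IsScalarTower k R B] [Group G]
    [MulSemiringAction G B] [SMulCommClass G R B] : Prop :=
  IsVariety (X := Spec (CommRingCat.of (invariants k R B G)))
    (Spec.map (CommRingCat.ofHom (algebraMap k (invariants k R B G)))) ∧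
  HasResolution (X := Spec (CommRingCat.of (invariants k R B G)))
    (Spec.map (CommRingCat.ofHom (algebraMap k (invariants k R B G))))

/-- The map `f` commutes with the comultiplication `Δ` in the first factor. -/
def CommutesLeft {R B : Type*} [CommSemiring R] [AddCommMonoid B] [Module R B]
    (Δ : B →ₗ[R] B ⊗[R] B) (f : B →ₗ[R] B) : Prop :=
  ∀ b : B, Δ (f b) = f.rTensor B (Δ b)

/-- `G` acts on the group scheme `X = Spec B` over `S = Spec R` by translations by sections: the
comultiplication `Δ` satisfies `Δ (g • b) = (g ⊗ 1) (Δ b)`. -/
def ActsByTranslations (R B G : Type*) [CommRing R] [CommRing B] [HopfAlgebra R B] [Group G]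
    [MulSemiringAction G B] [SMulCommClass G R B] : Prop :=
  ∀ g : G, CommutesLeft (Coalgebra.comul (R := R) (A := B)) (DistribSMul.toLinearMap R B g)

/-- `S = Spec R` is a surface whose function field is the function field of a smooth projective
surface (always true), or it has any dimension and every projective variety with the same function
field is dominated by a smooth projective variety (known in dimension at most `3`). -/
def IsGoodBase (k R : Type u) [Field k] [CommRing R] [IsDomain R] [Algebra k R] : Prop :=
  (Algebra.trdeg k (FractionRing R) = 2 ∧ HasModel k (FractionRing R)) ∨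
    HasSmoothModels k (FractionRing R)

/-- Statement (1): quotients of smooth integral schemes `X = Spec B` over `S = Spec R` by finite
groups with a constant orbit relation have resolutions. -/
def ConstantRelations (k : Type u) [Field k] : Prop :=
  ∀ (R : Type u) [CommRing R] [IsDomain R] [Algebra k R] [Algebra.FiniteType k R],
    IsGoodBase k R →
    ∀ (B G : Type u) [CommRing B] [IsDomain B] [Algebra k B] [Algebra R B] [IsScalarTower k R B]
      [Algebra.Smooth R B] [Group G] [Finite G] [MulSemiringAction G B] [SMulCommClass G R B]
      [FaithfulSMul G B], IsConstantRelation R B G → QuotientHasResolution k R B G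

/-- Statement (2): quotients of group schemes by finite groups of sections. -/
def GroupSchemes (k : Type u) [Field k] : Prop :=
  ∀ (R : Type u) [CommRing R] [IsDomain R] [Algebra k R] [Algebra.FiniteType k R],
    IsGoodBase k R →
    ∀ (B G : Type u) [CommRing B] [IsDomain B] [Algebra k B] [HopfAlgebra R B]
      [IsScalarTower k R B] [Algebra.Smooth R B] [Group G] [Finite G] [MulSemiringAction G B]
      [SMulCommClass G R B] [FaithfulSMul G B],
      ActsByTranslations R B G → QuotientHasResolution k R B G

/-- Statement (3): quotients of closed subschemes of `GL_n` by finite groups of matrices. -/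
def MatrixSchemes (k : Type u) [Field k] : Prop :=
  ∀ (R : Type u) [CommRing R] [IsDomain R] [Algebra k R] [Algebra.FiniteType k R],
    IsGoodBase k R →
    ∀ (B G : Type u) [CommRing B] [IsDomain B] [Algebra k B] [Algebra R B] [IsScalarTower k R B]
      [Algebra.Smooth R B] [Group G] [Finite G] [MulSemiringAction G B] [SMulCommClass G R B]
      [FaithfulSMul G B] (n : ℕ) (X : Matrix.GeneralLinearGroup (Fin n) B)
      (u : G →* Matrix.GeneralLinearGroup (Fin n) R),
      Algebra.adjoin R ({x | ∃ i j, x = X i j} ∪ {x | ∃ i j, x = X⁻¹ i j}) = ⊤ →
      (∀ (g : G) (i j : Fin n), g • X i j = ∑ l, X i l * algebraMap R B (u g l j)) →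
      QuotientHasResolution k R B G

end defs

/-- Statement (4): quotients of `S × GL_n`, whose coordinate ring is the localization of the
polynomial ring `R[x_ij]` at the determinant `det (x_ij)`, by finite groups of matrices over `R`. -/
def GLQuotients (k : Type u) [Field k] : Prop :=
  ∀ (R : Type u) [CommRing R] [IsDomain R] [Algebra k R] [Algebra.FiniteType k R],
    IsGoodBase k R →
    ∀ (B G : Type u) [CommRing B] [IsDomain B] [Algebra k B] [Algebra R B] [IsScalarTower k R B]
      [Group G] [Finite G] [MulSemiringAction G B] [SMulCommClass G R B] [FaithfulSMul G B]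
      (n : ℕ) [Algebra (MvPolynomial (Fin n × Fin n) R) B]
      [IsScalarTower R (MvPolynomial (Fin n × Fin n) R) B]
      [IsLocalization.Away (Matrix.det (Matrix.mvPolynomialX (Fin n) (Fin n) R)) B]
      (u : G →* Matrix.GeneralLinearGroup (Fin n) R),
      (∀ (g : G) (i j : Fin n), g • algebraMap _ B (MvPolynomial.X (R := R) (i, j)) =
        ∑ l, algebraMap _ B (MvPolynomial.X (R := R) (i, l)) * algebraMap R B (u g l j)) →
      QuotientHasResolution k R B G

section aux

set_option linter.unusedSectionVars false

variable {k R B G : Type u} [Field k] [CommRing R] [CommRing B] [IsDomain B]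
    [Algebra k R] [Algebra R B] [Algebra k B] [IsScalarTower k R B] [Group G] [Finite G]
    [MulSemiringAction G B] [SMulCommClass G R B]

theorem finiteType_inv [Algebra.FiniteType k B] : Algebra.FiniteType k (invariants k R B G) := by
  have h0 : Algebra.IsInvariant (invariants k R B G) B G := ⟨fun x hx => ⟨⟨x, hx⟩, rfl⟩⟩
  have h1 : Algebra.IsIntegral (invariants k R B G) B :=
    Algebra.IsInvariant.isIntegral (invariants k R B G) B G
  have h2 : Algebra.FiniteType (invariants k R B G) B :=
    Algebra.FiniteType.of_restrictScalars_finiteType k _ _
  have h3 : Module.Finite (invariants k R B G) B := Algebra.IsIntegral.finite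
  refine ⟨?_⟩
  refine fg_of_fg_of_fg k (invariants k R B G) B ?_ h3.1 ?_
  · exact (inferInstance : Algebra.FiniteType k B).1
  · exact Subtype.val_injective

omit [Field k] [IsDomain B] [Algebra k R] [Algebra k B] [IsScalarTower k R B] [Group G] [Finite G]
  [MulSemiringAction G B] [SMulCommClass G R B] in
theorem det_mem (S : Subalgebra R B) {n : ℕ} (M : Matrix (Fin n) (Fin n) B)
    (h : ∀ i j, M i j ∈ S) : M.det ∈ S := by
  rw [Matrix.det_apply]
  refine S.sum_mem fun σ _ => ?_
  rw [Units.smul_def]
  refine S.zsmul_mem ?_ _
  exact S.prod_mem fun i _ => h _ _

end aux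

/-- Let `k` be a perfect field of characteristic `p`, and `S = Spec R` a variety over `k`: an affine
surface, whose function field is the function field of a smooth projective surface (this is always
the case), or of any dimension, such that every projective variety with the same function field is
dominated by a smooth projective variety (known in dimension at most `3`).

(1) Let `X = Spec B` be an integral scheme which is smooth over `S`, and `G` a finite group
(of any order) which acts faithfully on `X` over `S`, such that the orbit relation is constant over
`S`. Then `X / G` is a variety and has a resolution of singularities.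

(2) Let `X = Spec B` be an integral smooth affine group scheme over `S` and `G` a finite group of
sections of `X` over `S`, acting by translations. Then `X / G` has a resolution of singularities.

(3) Let `X` be a closed subscheme of `GL_n` over `S`, integral and smooth over `S`, `G` a finite
group of matrices, `u : G → GL_n(R)`, such that `X` is stable under the multiplication by `G` from
the right. Then `X / G` has a resolution of singularities.

(4) For every finite group `G` of `n × n`-matrices, invertible over `R`, the quotient of
`S × GL_n` by `G` has a resolution of singularities; this applies to `S = 𝔸²`. -/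
theorem result (p : ℕ) [Fact p.Prime] (k : Type u) [Field k] [CharP k p] [PerfectField k] :
    ConstantRelations k ∧ GroupSchemes k ∧ MatrixSchemes k ∧ GLQuotients k ∧
      IsGoodBase k (MvPolynomial (Fin 2) k) := by
  have part1 : ConstantRelations k := by
    intro R _ _ _ _ hE B G _ _ _ _ _ _ _ _ _ _ _ hconst
    classical
    have hfint : Fintype G := Fintype.ofFinite G
    have hE' : Pool.Agent.Q40.FC.Princ (Pool.Agent.Q40.RS.img k R (FractionRing R)) := by
      rcases hE with ⟨h2, hE⟩ | hE
      · exact Pool.Agent.Q40.FC.princ_of_LM (Pool.Agent.W418.LCI.hasLM_of_surface k _ h2 hE) _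
          Pool.Agent.Q40.RS.img_fg Pool.Agent.Q40.RS.img_frac
      · exact Pool.Agent.Q40.FC.princ_of_models hE _ Pool.Agent.Q40.RS.img_fg
          Pool.Agent.Q40.RS.img_frac
    have hRB : Function.Injective (algebraMap R B) := by
      have h1 : Module.Flat R B := inferInstance
      exact FaithfulSMul.algebraMap_injective R B
    have hBL : Function.Injective (algebraMap B (FractionRing B)) :=
      IsFractionRing.injective B (FractionRing B)
    have hf : FaithfulSMul R (FractionRing B) := by
      rw [faithfulSMul_iff_algebraMap_injective, IsScalarTower.algebraMap_eq R B (FractionRing B)]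
      exact hBL.comp hRB
    let _ : Algebra (FractionRing R) (FractionRing B) := FractionRing.liftAlgebra R (FractionRing B)
    have t1 : IsScalarTower R (FractionRing R) (FractionRing B) :=
      FractionRing.isScalarTower_liftAlgebra R (FractionRing B)
    have t2 : IsScalarTower k (FractionRing R) (FractionRing B) := by
      refine IsScalarTower.of_algebraMap_eq fun x => ?_
      rw [IsScalarTower.algebraMap_apply k R (FractionRing R),
        ← IsScalarTower.algebraMap_apply R (FractionRing R) (FractionRing B),
        IsScalarTower.algebraMap_apply R B (FractionRing B),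
        ← IsScalarTower.algebraMap_apply k R B, ← IsScalarTower.algebraMap_apply k B]
    let _ : MulSemiringAction G (FractionRing B) :=
      IsFractionRing.mulSemiringAction G B (FractionRing B)
    have t3 : SMulDistribClass G B (FractionRing B) :=
      IsFractionRing.smulDistribClass G B (FractionRing B)
    have t4 : SMulCommClass G (FractionRing R) (FractionRing B) :=
      IsFractionRing.smulCommClass G R B (FractionRing R) (FractionRing B)
    have t5 : FaithfulSMul G (FractionRing B) :=
      IsFractionRing.faithfulSMul G B (FractionRing B)
    obtain ⟨V, hV⟩ := Pool.Agent.Q40.FC.span_of_constant hconst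
    have hftB : Algebra.FiniteType k B := Algebra.FiniteType.trans (S := R) inferInstance
      inferInstance
    have heq : invariants k R B G = Pool.Agent.Q40.FC.cF k B
        (Pool.Agent.Q40.FC.fxd (FractionRing R) G (L := FractionRing B)) := by
      ext b
      constructor
      · intro h g
        change g • algebraMap B (FractionRing B) b = algebraMap B (FractionRing B) b
        rw [Pool.Agent.Q40.FC.smul_algebraMap_L]
        exact congrArg _ (h g)
      · intro h g
        have h1 := h g
        change g • algebraMap B (FractionRing B) b = algebraMap B (FractionRing B) b at h1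
        rw [Pool.Agent.Q40.FC.smul_algebraMap_L] at h1
        exact hBL h1
    have hft := finiteType_inv (k := k) (R := R) (B := B) (G := G)
    refine ⟨isVariety_spec, ?_⟩
    rw [heq]
    exact Pool.Agent.Q40.FC.main_group (E := FractionRing R) G p hE' V hV
  have part3 : MatrixSchemes k := by
    intro R _ _ _ _ hE B G _ _ _ _ _ _ _ _ _ _ _ n X u hX hact
    exact part1 R hE B G (Pool.Agent.Q40.FC.constant_of_matrix X u hX hact)
  refine ⟨part1, ?_, part3, ?_, Or.inl ⟨trdeg_RF2 k, hasModel_RF2 k⟩⟩
  · intro R _ _ _ _ hE B G _ _ _ _ _ _ _ _ _ _ _ h
    exact part1 R hE B G (Pool.Agent.Q40.FC.constant_of_hopf h)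
  · intro R _ _ _ _ hE B G _ _ _ _ _ _ _ _ _ _ n _ _ _ u hact
    let P := MvPolynomial (Fin n × Fin n) R
    let D : P := Matrix.det (Matrix.mvPolynomialX (Fin n) (Fin n) R)
    have hs1 : Algebra.Smooth R P := ⟨inferInstance, inferInstance⟩
    have hs2 : Algebra.Smooth P B := Algebra.Smooth.of_isLocalization_Away D
    have hs3 : Algebra.Smooth R B := Algebra.Smooth.comp R P B
    let Xm : Matrix (Fin n) (Fin n) B := Matrix.of fun i j =>
      algebraMap P B (MvPolynomial.X (i, j))
    have hdet : Xm.det = algebraMap P B D := by
      rw [RingHom.map_det]
      congr 1
    have hunit : IsUnit Xm.det := by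
      rw [hdet]
      exact IsLocalization.Away.algebraMap_isUnit D
    let X : Matrix.GeneralLinearGroup (Fin n) B := Matrix.nonsingInvUnit Xm hunit
    have hXc : ∀ i j, X i j = algebraMap P B (MvPolynomial.X (i, j)) := fun i j => rfl
    refine part3 R hE B G n X u ?_ hact
    rw [eq_top_iff]
    set S := Algebra.adjoin R ({x | ∃ i j, x = X i j} ∪ {x | ∃ i j, x = X⁻¹ i j}) with hS
    have h1 : ∀ q : P, algebraMap P B q ∈ S := by
      intro q
      induction q using MvPolynomial.induction_on with
      | C a =>
        have : algebraMap P B (MvPolynomial.C a) = algebraMap R B a :=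
          (IsScalarTower.algebraMap_apply R P B a).symm
        rw [this]
        exact S.algebraMap_mem a
      | add a b ha hb => rw [map_add]; exact S.add_mem ha hb
      | mul_X a ij ha =>
        rw [map_mul]
        refine S.mul_mem ha (Algebra.subset_adjoin (Or.inl ⟨ij.1, ij.2, ?_⟩))
        rfl
    have h2 : ∃ w ∈ S, algebraMap P B D * w = 1 := by
      refine ⟨Matrix.det (Matrix.of fun i j => X⁻¹ i j), ?_, ?_⟩
      · exact det_mem S _ fun i j => Algebra.subset_adjoin (Or.inr ⟨i, j, rfl⟩)
      · rw [← hdet, ← Matrix.det_mul]
        have h3 : Xm * (Matrix.of fun i j => X⁻¹ i j) = 1 := by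
          have h4 : ((X * X⁻¹ : Matrix.GeneralLinearGroup (Fin n) B) :
              Matrix (Fin n) (Fin n) B) = 1 := by rw [mul_inv_cancel]; rfl
          exact h4
        rw [h3, Matrix.det_one]
    obtain ⟨w, hwS, hw⟩ := h2
    intro z _
    obtain ⟨q, ⟨_, m, rfl⟩, hq⟩ := IsLocalization.exists_mk'_eq (Submonoid.powers D) z
    have h5 : z * algebraMap P B D ^ m = algebraMap P B q := by
      rw [← hq, ← map_pow]
      exact IsLocalization.mk'_spec _ _ _
    have h6 : z = algebraMap P B q * w ^ m := by
      rw [← h5, mul_assoc, ← mul_pow, hw, one_pow, mul_one]
    rw [h6]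
    exact S.mul_mem (h1 q) (S.pow_mem hwS m)

end Pool.Agent.Results.MP_b525bf_ag.GroupSchemeQuotients
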