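import Pool.Agent.Q17.Res.Fol5

/-!
MP_b525bf_ag: resolution of the quotients of smooth affine varieties of characteristic `p` by
`p`-closed foliations of arbitrary rank whose leading forms at a weighted centre are regular outside
of the vertex; in particular by all `p`-closed foliations of affine spaces which are generated by
weighted homogeneous vector fields and are regular outside of the centre.
-/

set_option autoImplicit false

open AlgebraicGeometry CategoryTheory MvPolynomial Pool.Agent.H920R2 Pool.Agent.H519R3.RS

universe u

namespace Pool.Agent.Results.MP_b525bf_ag.PClosedFoliations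

section

variable {k B : Type u} [Field k] [CommRing B] [Algebra k B]

/-- The structure morphism of the spectrum of a subalgebra. -/
noncomputable def str (C : Subalgebra k B) :
    Spec (CommRingCat.of C) ⟶ Spec (CommRingCat.of k) :=
  Spec.map (CommRingCat.ofHom (algebraMap k C))

/-- The spectrum of the subalgebra `C` is a variety and has a resolution of singularities: there
are an integral scheme `Y`, smooth over `k`, and a proper morphism from `Y` to the spectrum which
is an isomorphism over a dense open subset. -/
def IsResolvable (C : Subalgebra k B) : Prop :=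
  IsVariety (str C) ∧
  ∃ (Y : Scheme.{u}) (π : Y ⟶ Spec (CommRingCat.of C)),
    AlgebraicGeometry.IsIntegral Y ∧ AlgebraicGeometry.IsProper π ∧
    AlgebraicGeometry.Smooth (π ≫ str C) ∧
    ∃ U : (Spec (CommRingCat.of C)).Opens, Dense (U : Set (Spec (CommRingCat.of C))) ∧
      IsIso (π ∣_ U)

/-- The module `𝓕` of vector fields is a `p`-closed foliation of rank at most `n`: it is closed
under commutators and `p`-th powers, and up to denominators its elements are combinations of `n`
vector fields. -/
def IsFoliation (p n : ℕ) (𝓕 : Submodule B (Derivation k B B)) : Prop :=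
  (∀ D ∈ 𝓕, ∀ D' ∈ 𝓕, ⁅D, D'⁆ ∈ 𝓕) ∧
  (∀ D ∈ 𝓕, ∃ D' ∈ 𝓕, ∀ x, D' x = D^[p] x) ∧
  ∃ E : Fin n → Derivation k B B, ∀ D ∈ 𝓕, ∃ s : B, s ≠ 0 ∧
    s • D ∈ Submodule.span B (Set.range E)

/-- The ring of constants of a foliation: the coordinate ring of the quotient. -/
noncomputable def constants (𝓕 : Submodule B (Derivation k B B)) : Subalgebra k B where
  carrier := {b | ∀ D ∈ 𝓕, D b = 0}
  mul_mem' := by
    intro x y hx hy a ha
    rw [Derivation.leibniz, hx a ha, hy a ha, smul_zero, smul_zero, add_zero]
  add_mem' := by
    intro x y hx hy a ha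
    rw [map_add, hx a ha, hy a ha, add_zero]
  algebraMap_mem' := fun x a _ => a.map_algebraMap x

/-- The determinant of the matrix of the `D i (c j)`. -/
noncomputable def minor {n : ℕ} (D : Fin n → Derivation k B B) (c : Fin n → B) : B :=
  Matrix.det (Matrix.of fun i j => D i (c j))

/-- The vector field `D` raises the weights of the filtration by the integer `l`. -/
def RaisesWeights (F : ℕ → Ideal B) (D : Derivation k B B) (l : ℤ) : Prop :=
  ∀ d : ℕ, ∀ b ∈ F d, D b ∈ F ((d : ℤ) + l).toNat

/-- The elements of weight `M` which are, up to higher order, combinations of the minors of the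
leading forms of the vector fields of the foliation: the ideal generated by `F (M + 1)` and the
products of the minors `det (D i (c j))`, where `D i ∈ 𝓕` raises the weights by `l i` and `c j` has
weight `e j`, with elements of weight `M - ∑ j, (e j + l j)`. -/
def leadingMinors (n : ℕ) (𝓕 : Submodule B (Derivation k B B)) (F : ℕ → Ideal B) (M : ℕ) :
    Ideal B :=
  F (M + 1) ⊔ Ideal.span {y | ∃ (D : Fin n → Derivation k B B) (l : Fin n → ℤ) (e : Fin n → ℕ)
    (c : Fin n → B), (∀ i, D i ∈ 𝓕) ∧ (∀ i, RaisesWeights F (D i) (l i)) ∧ (∀ j, c j ∈ F (e j)) ∧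
    ∃ b ∈ F ((M : ℤ) - ∑ j, ((e j : ℤ) + l j)).toNat, y = b * minor D c}

end

section

variable {k : Type u} [Field k] {N : ℕ}

/-- The vector field `D` of affine space is weighted homogeneous of degree `l`: every monomial of
`D (X i)` has the weight `w i + l`. -/
def IsHomogeneous (w : Fin N → ℕ)
    (D : Derivation k (MvPolynomial (Fin N) k) (MvPolynomial (Fin N) k)) (l : ℤ) : Prop :=
  ∀ i, ∀ α ∈ (D (X i)).support, ((Finsupp.weight w α : ℕ) : ℤ) = (w i : ℤ) + l

end

lemma resolvable {k B : Type u} [Field k] [CommRing B] [IsDomain B] [Algebra k B]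
    {F : ℕ → Ideal B} (hF : IsFilt F) {C : Subalgebra k B} (hG : Good k (isFilt_restr hF C))
    (hne : restr F C 1 ≠ ⊥) : IsResolvable C := concl hF hG hne

/-- Let `k` be a field of characteristic `p`.

(1) Let `B` be a domain over `k` and `F` a decreasing multiplicative filtration of `B` by ideals
with `F 1 ≠ 0` such that either `B` is smooth and `F` is a regular weighted centre, or (`Good`; here
`B` may be singular) the weighted blowup of `F` is smooth. Let `𝓕` be a `p`-closed foliation of
rank `n` on `Spec B`, such that

* `𝓕` is regular outside of the centre: every prime ideal which contains all minors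
  `det (D i (c j))`, `D i ∈ 𝓕`, `c j ∈ B`, contains `F 1`,
* the leading forms of `𝓕` are regular outside of the vertex of the weighted normal cone: every `b`
  of weight `d > 0` has a power which is, up to higher order, a combination of the minors of the
  leading forms of the vector fields of `𝓕`.

Then the quotient of `Spec B` by `𝓕` is a variety and has a resolution of singularities.

(2) In particular: let the coordinates of affine `N`-space have weights `w i ≥ 0`, not all zero.
Let `𝓕` be a `p`-closed foliation of rank `n` which is generated by weighted homogeneous vector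
fields and is regular outside of the subspace where the coordinates of positive weight vanish: if
all `n × n`-minors of the matrices of the coefficients of vector fields of `𝓕` vanish at a point
`z` (with coordinates in any field), then `z i = 0` if `w i > 0`. Then the quotient of affine space
by `𝓕` is a variety and has a resolution of singularities. -/
theorem result (p : ℕ) [Fact p.Prime] (k : Type u) [Field k] [CharP k p] :
    (∀ (B : Type u) [CommRing B] [IsDomain B] [Algebra k B] (F : ℕ → Ideal B) (hF : IsFilt F),
      F 1 ≠ ⊥ → (Good k hF ∨ (Algebra.Smooth k B ∧ RegularWeightedCentre k F)) →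
      ∀ (n : ℕ) (𝓕 : Submodule B (Derivation k B B)), IsFoliation p n 𝓕 →
      (∀ P : Ideal B, P.IsPrime → (∀ (D : Fin n → Derivation k B B) (c : Fin n → B),
        (∀ i, D i ∈ 𝓕) → minor D c ∈ P) → F 1 ≤ P) →
      (∀ d, 1 ≤ d → ∀ b ∈ F d, ∃ M : ℕ, b ^ M ∈ leadingMinors n 𝓕 F (M * d)) →
      IsResolvable (constants 𝓕)) ∧
    ∀ (N n : ℕ) (w : Fin N → ℕ), (∃ i, 0 < w i) →
      ∀ (𝓕 : Submodule (MvPolynomial (Fin N) k)
        (Derivation k (MvPolynomial (Fin N) k) (MvPolynomial (Fin N) k))),
      IsFoliation p n 𝓕 →
      𝓕 = Submodule.span (MvPolynomial (Fin N) k) {D | D ∈ 𝓕 ∧ ∃ l, IsHomogeneous w D l} →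
      (∀ (K : Type u) [Field K] [Algebra k K] (z : Fin N → K),
        (∀ (D : Fin n → Derivation k (MvPolynomial (Fin N) k) (MvPolynomial (Fin N) k))
          (q : Fin n → Fin N), (∀ i, D i ∈ 𝓕) → aeval z (minor D fun j => X (q j)) = 0) →
        ∀ i, 0 < w i → z i = 0) →
      IsResolvable (constants 𝓕) := by
  have hp : p.Prime := Fact.out
  have hpk : (p : k) = 0 := CharP.cast_eq_zero k p
  constructor
  · intro B _ _ _ F hF hne hG n 𝓕 h𝓕 hfix hlead
    have hG' : Good k hF := by
      rcases hG with h | ⟨h1, h2⟩
      · exact h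
      · exact good_of_centre hF h2
    have h1 := Q17.Res.good_fol hp hpk ⟨h𝓕.1, h𝓕.2.1, h𝓕.2.2⟩ hF hG' hfix hlead
    exact resolvable hF h1 (Q17.Res.ne_bot_fol hp hpk 𝓕 hne)
  · intro N n w hw 𝓕 h𝓕 hgen hV
    obtain ⟨h1, h2⟩ := Q17.Res.good_homF w 𝓕 hgen.le hV hp hpk ⟨h𝓕.1, h𝓕.2.1, h𝓕.2.2⟩ hw
    exact resolvable (Pool.Agent.H519R3.RE.isFilt_EI _ w) h1 h2

end Pool.Agent.Results.MP_b525bf_ag.PClosedFoliations
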